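import Pool.Agent.Helper93.LCH.Asm

/-!
# MP_b555a2_al: a chain criterion for locally indicable groups, over an arbitrary field

Let `K` be a field and `G` a locally indicable group. If `G` has no infinite chain
`H 0 ≥ H 1 ≥ ...` of nontrivial finitely generated subgroups of Betti number one, whose group
algebras are not Ore, with `H (n + 1)` in the common kernel of all homomorphisms
from `H n` to the integers, then `K[G]` embeds in a division ring.
-/

namespace Pool.Agent.Results.MP_b555a2_al.ChainCriterion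

universe u v

theorem result (K : Type u) [Field K] (G : Type v) [Group G]
    (hind : ∀ H : Subgroup G, H.FG → H ≠ ⊥ → ∃ φ : H →* Multiplicative ℤ, φ ≠ 1)
    (hchain : ¬ ∃ H : ℕ → Subgroup G, ∀ n : ℕ, (H n).FG ∧ H n ≠ ⊥ ∧
      (∀ φ ψ : H n →* Multiplicative ℤ, ∃ a b : ℤ, (a ≠ 0 ∨ b ≠ 0) ∧ φ ^ a * ψ ^ b = 1) ∧
      (¬ ∀ a b : MonoidAlgebra K (H n), b ≠ 0 →
        ∃ c d : MonoidAlgebra K (H n), d ≠ 0 ∧ d * a = c * b) ∧
      ∃ hle : H (n + 1) ≤ H n,
        ∀ (x : H (n + 1)) (φ : H n →* Multiplicative ℤ), φ ⟨x, hle x.2⟩ = 1) :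
    ∃ (D : Type (max u v)) (_ : DivisionRing D) (f : MonoidAlgebra K G →+* D),
      Function.Injective f := by
  refine LCH.fin_all.{u, v} K G hind ?_
  rintro ⟨H, hH⟩
  apply hchain
  refine ⟨H, fun n => ?_⟩
  obtain ⟨h1, h2, h3, h4, h5⟩ := hH n
  refine ⟨h1, h2, h3, h4, ?_⟩
  have hle : H (n + 1) ≤ H n := by
    intro x hx
    obtain ⟨y, _, rfl⟩ := h5 hx
    exact y.2
  refine ⟨hle, ?_⟩
  rintro ⟨x, hx⟩ φ
  obtain ⟨y, hy, hyx⟩ := h5 hx
  have hy' := (Subgroup.mem_iInf.1 hy) φ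
  have e : (⟨x, hle hx⟩ : H n) = y := Subtype.ext hyx.symm
  have hy2 : φ y = 1 := hy'
  calc φ ⟨x, hle hx⟩ = φ y := by rw [e]
    _ = 1 := hy2

end Pool.Agent.Results.MP_b555a2_al.ChainCriterion
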